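import Mathlib
import Pool.Agent.Helper18.UW.GoalsA
import Pool.Agent.Helper43.Gm.E

/-!
# Project UW, packet E1w: filling with two bounds
-/

set_option autoImplicit false

namespace Pool.Agent.Helper50.UW

open Finset Pool.Agent.Lead.Sh
open Pool.Agent.Helper43.Gm (Pri SS Run cl nn GoalB GoalC)
open Pool.Agent.Helper43.Gm.PkD (nn_eq)
open Pool.Agent.Helper43.Gm.PkE
open Pool.Agent.Helper18.UW

/-- packet E1w -/
theorem goalE1w (hB : GoalB) (hC : GoalC) (hD : GoalD2) : GoalE1w := by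
  intro M m0 R J c0 ν ℓ Bd hm01 hm0M hR1 h1 hM hc0 hMJ hJR hBd hd hg1 hg2 hs hRB W N hW hsum
  obtain ⟨κ, x, hR, hlh, hbd, hpot⟩ := hD M m0 R J c0 ν ℓ Bd hm01 hm0M h1 hM hc0 hMJ hJR hBd hd
    hg1 hg2 hs
  obtain ⟨π, ε, hpri⟩ := hB M R ν κ x hR
  refine ⟨nn κ x ν, π, ε, hpri N, ?_⟩
  set K := KK κ x R with hK
  -- it is enough to show `K ≤ N`
  suffices hKN : K ≤ N by
    intro y hy
    rw [sum_eq_SS N (fun c hc => lt_of_lt_of_le (lt_KK hR hy hc) hKN)]
    exact (hlh y hy).1
  have hE := run_ext hR hR1 (R + M)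
  have htot : ∀ c ∈ range K, ∑ y ∈ range (R + M), nn (ek κ x R) (ex x R) ν c y =
      (ν c + 1).choose 2 := by
    intro c hc
    rw [mem_range] at hc
    exact hC M (R + M) ν _ _ hE c R (by omega) (by rw [ek_ge le_rfl]; exact hc) le_rfl
  apply le_of_sum h1
  rw [← sum_congr rfl htot, sum_comm, sum_range_add]
  have hrows : ∑ y ∈ range R, ∑ c ∈ range K, nn (ek κ x R) (ex x R) ν c y =
      ∑ y ∈ range R, SS κ x ν y := by
    apply sum_congr rfl
    intro y hy
    rw [mem_range] at hy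
    rw [sum_congr rfl (fun c _ => nn_ext hy)]
    exact sum_eq_SS K (fun c hc => lt_KK hR hy hc)
  rw [hrows]
  set U : ℕ → ℕ := fun t => ∑ c ∈ range K, nn (ek κ x R) (ex x R) ν c (R + t) with hU
  have hUdrop : ∀ t, U (t + 1) ≤ U t - 1 := by
    intro t
    simp only [hU]
    rw [show R + (t + 1) = R + t + 1 by omega]
    exact old_drop (by rw [ek_ge (by omega)]) (by rw [ek_ge (by omega)])
  have hUt : ∀ t, U t ≤ U 0 - t := by
    intro t
    induction t with
    | zero => omega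
    | succ t ih => have := hUdrop t; omega
  obtain ⟨r, hr⟩ : ∃ r, R = r + 1 := ⟨R - 1, by omega⟩
  have hr' : R - 1 = r := by omega
  have hSSr := hlh r (by omega)
  rw [hr'] at hW hRB
  have hx : x r = 0 := hbd r (by omega) hRB
  -- the row `R`
  have hU0 : U 0 ≤ SS κ x ν r - 1 := by
    have hKr : K = κ r := by rw [hK, KK, hr', if_neg (by omega), add_zero]
    have hold : ∑ c ∈ range (κ r), nn (ek κ x R) (ex x R) ν c (r + 1) ≤
        ∑ c ∈ range (κ r), nn (ek κ x R) (ex x R) ν c r - 1 := by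
      apply old_drop
      · rw [ek_lt (by omega)]
      · rw [ek_ge (by omega)]; omega
    rw [← hr, sum_congr rfl (fun c _ => nn_ext (show r < R by omega))] at hold
    have hSS : SS κ x ν r = ∑ c ∈ range (κ r), nn κ x ν c r + x r := by
      unfold SS
      rw [sum_range_succ]
      congr 1
      rw [nn_eq, if_neg (lt_irrefl _), if_pos rfl]
    simp only [hU]
    rw [add_zero, hKr]
    omega
  have hsplit : ∑ y ∈ range R, SS κ x ν y = ∑ y ∈ range R, ℓ y +
      ∑ y ∈ range R, (SS κ x ν y - ℓ y) := by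
    rw [← sum_add_distrib]
    apply sum_congr rfl
    intro y hy
    rw [mem_range] at hy
    have := (hlh y hy).1
    omega
  rw [hsplit]
  set E := ∑ y ∈ range R, (SS κ x ν y - ℓ y) with hEdef
  have h3 : ∑ t ∈ range M, U t ≤ ∑ t ∈ range M, (ℓ r + m0 - 1 - t) := by
    apply sum_le_sum
    intro t _
    have := hUt t
    omega
  have h4 := sum_desc (ℓ r + m0) M
  have h5 : ∑ t ∈ range M, ∑ c ∈ range K, nn (ek κ x R) (ex x R) ν c (R + t) =
      ∑ t ∈ range M, U t := rfl
  rw [h5]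
  omega

end Pool.Agent.Helper50.UW
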