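import Mathlib
import Pool.Agent.Helper18.UW.GoalsG
import Pool.Agent.Helper56.EW.G8

/-!
# Project UW, packet G8u: deaths of the special points (arbitrary multiplicities)
-/

set_option autoImplicit false

namespace Pool.Agent.Helper50.UW

open Finset
open Pool.Agent.Helper18.EW
open Pool.Agent.Helper18.UW
open Pool.Agent.Helper43.Hw (T na va lz Play aa ac sc oo sk U Dd Sd Pn nx bb np)

/-- the row at which the special point `i` starts -/
def st (R τ s : ℕ) (ms e P : ℕ → ℕ) (i : ℕ) : ℕ :=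
  ac R (gk s (fun _ => e i) P 0) (gx (ms i) τ s (fun _ => e i) P 0) 0

theorem le_uD {μ δ R K τ s E d y : ℕ} {ms e P : ℕ → ℕ} (h1 : GoalG1)
    (hG : UGrp μ δ R K τ s E ms e P) (hsy : s ≤ y) (hy : y < R) (S : Finset ℕ) (hS : S ⊆ range K)
    (hSd : ∀ i ∈ S, st R τ s ms e P i + d ≤ R - 1 - ms i ∧
      R - 1 - ms i < st R τ s ms e P i + (R - 1 - y)) :
    S.card * T d ≤ uD R K τ s ms e P y := by
  unfold uD
  calc S.card * T d = ∑ _i ∈ S, T d := by rw [Finset.sum_const, smul_eq_mul]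
    _ ≤ ∑ i ∈ S, gD (ms i) R 1 τ s (fun _ => e i) P y := by
        refine Finset.sum_le_sum fun i hi => ?_
        have hiK := Finset.mem_range.1 (hS hi)
        have hm := hG.mm i hiK
        have h := Pool.Agent.Helper56.EW.le_gD (d := d) h1 hm.2.2 (hG.one hiK) hsy hy (range 1)
          (Finset.Subset.refl _) (fun j _ => hSd i hi)
        simpa using h
    _ ≤ ∑ i ∈ range K, gD (ms i) R 1 τ s (fun _ => e i) P y :=
        Finset.sum_le_sum_of_subset hS

theorem st_spec {μ δ R K τ s E : ℕ} {ms e P : ℕ → ℕ} (h1 : GoalG1)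
    (hG : UGrp μ δ R K τ s E ms e P) {i : ℕ} (hi : i < K) :
    τ ≤ st R τ s ms e P i ∧ st R τ s ms e P i ≤ R - 1 - ms i ∧
      ∀ t, τ ≤ t → t < s → (st R τ s ms e P i ≤ t ↔ P t / e i < ms i) :=
  (h1 (ms i) R 1 τ s E (fun _ => e i) P (hG.mm i hi).2.2 (hG.one hi) 0 (by norm_num)).2.1

/-- packet G8u -/
theorem goalG8u (h1 : GoalG1) : GoalG8u := by
  intro μ δ R b q τ s E v l y ms e P hv hb hG hJ1 hJ2 hl hδ hP hbat hsy hy hvw hw16
  have hJs := hG.Js
  have hsR := hG.sR
  have htJ := hG.tJ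
  have hts := hG.ts
  have hbatch : ∀ k < q, 2 ^ k * v < R - 1 - y →
      b * T (2 ^ k * v) ≤ uD R (b * (q + 1)) τ s ms e P y := by
    intro k hkq hk1
    have hpow : 2 * (2 ^ k * v) ≤ 2 ^ q * v := by
      have h2 : 2 ^ (k + 1) ≤ 2 ^ q := Nat.pow_le_pow_right (by norm_num) (by omega)
      calc 2 * (2 ^ k * v) = 2 ^ (k + 1) * v := by ring
        _ ≤ 2 ^ q * v := Nat.mul_le_mul_right v h2
    have hj : q - (q - k) = k := by omega
    have hS : Ico ((q - k) * b) ((q - k + 1) * b) ⊆ range (b * (q + 1)) := by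
      intro i hi
      rw [Finset.mem_Ico] at hi
      rw [Finset.mem_range]
      calc i < (q - k + 1) * b := hi.2
        _ ≤ (q + 1) * b := Nat.mul_le_mul_right b (by omega)
        _ = b * (q + 1) := Nat.mul_comm _ _
    have hcard : (Ico ((q - k) * b) ((q - k + 1) * b)).card = b := by
      rw [Nat.card_Ico, Nat.add_mul, Nat.one_mul, Nat.add_sub_cancel_left]
    have hmain := le_uD (d := 2 ^ k * v) h1 hG hsy hy _ hS (fun i hi => by
      have hiK := Finset.mem_range.1 (hS hi)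
      obtain ⟨ha1, ha2, ha3⟩ := st_spec h1 hG hiK
      obtain ⟨hm1, hm2, hm3⟩ := hG.mm i hiK
      rw [Finset.mem_Ico] at hi
      have hb' := hbat (q - k) (by omega) (by omega) i hi.1 hi.2
      rw [hj] at hb'
      constructor
      · have h3 := (ha3 (R - 1 - ms i - 2 ^ k * v) (by omega) (by omega)).2
          ((hb' _ (by omega) (by omega)).2 (by omega))
        omega
      · have h3 := (hb' _ ha1 (by omega)).1 ((ha3 _ ha1 (by omega)).1 le_rfl)
        omega)
    rwa [hcard] at hmain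
  by_cases hcase : R - 1 - y ≤ 2 ^ q * v
  · obtain ⟨k, hkq, hk1, hk2⟩ := Pool.Agent.Helper56.EW.exists_k v (R - 1 - y) q (by omega) hcase
    have hmain := hbatch k hkq hk1
    have hT := Pool.Agent.Helper43.Hw.two_T (2 ^ k * v)
    have hk2' : R - 1 - y ≤ 2 * (2 ^ k * v) := by
      calc R - 1 - y ≤ 2 ^ (k + 1) * v := hk2
        _ = 2 * (2 ^ k * v) := by ring
    have h4 : (R - 1 - y) ^ 2 ≤ 2048 * T (2 ^ k * v) := by
      calc (R - 1 - y) ^ 2 ≤ (2 * (2 ^ k * v)) ^ 2 := Nat.pow_le_pow_left hk2' 2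
        _ ≤ 2048 * T (2 ^ k * v) := by nlinarith
    calc b * (R - 1 - y) ^ 2 ≤ b * (2048 * T (2 ^ k * v)) := Nat.mul_le_mul_left b h4
      _ = 2048 * (b * T (2 ^ k * v)) := by ring
      _ ≤ 2048 * uD R (b * (q + 1)) τ s ms e P y := Nat.mul_le_mul_left _ hmain
  · by_cases hcase2 : R - 1 - y ≤ 2 * (2 ^ q * v)
    · have hq : q ≠ 0 := by
        rintro rfl
        omega
      obtain ⟨k, rfl⟩ := Nat.exists_eq_succ_of_ne_zero hq
      have h2 : 2 ^ k.succ * v = 2 * (2 ^ k * v) := by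
        rw [Nat.pow_succ]
        ring
      rw [h2] at hcase hcase2
      have hmain := hbatch k (Nat.lt_succ_self k) (by omega)
      have hT := Pool.Agent.Helper43.Hw.two_T (2 ^ k * v)
      have hk2' : R - 1 - y ≤ 4 * (2 ^ k * v) := by omega
      have h4 : (R - 1 - y) ^ 2 ≤ 2048 * T (2 ^ k * v) := by
        calc (R - 1 - y) ^ 2 ≤ (4 * (2 ^ k * v)) ^ 2 := Nat.pow_le_pow_left hk2' 2
          _ ≤ 2048 * T (2 ^ k * v) := by nlinarith
      calc b * (R - 1 - y) ^ 2 ≤ b * (2048 * T (2 ^ k * v)) := Nat.mul_le_mul_left b h4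
        _ = 2048 * (b * T (2 ^ k * v)) := by ring
        _ ≤ 2048 * uD R (b * (k.succ + 1)) τ s ms e P y := Nat.mul_le_mul_left _ hmain
    · have hS : range b ⊆ range (b * (q + 1)) := by
        intro i hi
        rw [Finset.mem_range] at hi ⊢
        calc i < b * 1 := by omega
          _ ≤ b * (q + 1) := Nat.mul_le_mul_left b (by omega)
      have hmain := le_uD (d := 2 ^ q * v - l - 1) h1 hG hsy hy _ hS (fun i hi => by
        have hiK := Finset.mem_range.1 (hS hi)
        obtain ⟨ha1, ha2, ha3⟩ := st_spec h1 hG hiK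
        obtain ⟨hm1, hm2, hm3⟩ := hG.mm i hiK
        rw [Finset.mem_range] at hi
        have h3 := (ha3 (τ + 1) (by omega) (by omega)).2 (hP i hi)
        constructor <;> omega)
      rw [Finset.card_range] at hmain
      have hT := Pool.Agent.Helper43.Hw.two_T (2 ^ q * v - l - 1)
      have h5 : R - 1 - y ≤ 32 * (2 ^ q * v - l - 1) := by omega
      have h4 : (R - 1 - y) ^ 2 ≤ 2048 * T (2 ^ q * v - l - 1) := by
        calc (R - 1 - y) ^ 2 ≤ (32 * (2 ^ q * v - l - 1)) ^ 2 := Nat.pow_le_pow_left h5 2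
          _ ≤ 2048 * T (2 ^ q * v - l - 1) := by nlinarith
      calc b * (R - 1 - y) ^ 2 ≤ b * (2048 * T (2 ^ q * v - l - 1)) := Nat.mul_le_mul_left b h4
        _ = 2048 * (b * T (2 ^ q * v - l - 1)) := by ring
        _ ≤ 2048 * uD R (b * (q + 1)) τ s ms e P y := Nat.mul_le_mul_left _ hmain

end Pool.Agent.Helper50.UW
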